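import Pool.Agent.Lib_helper8.V53.DimA
import Pool.Agent.Lib_helper8.V53.DimR
import Pool.Agent.Lib_helper8.V53.Square

set_option autoImplicit false

/-!
# Positive cones of dimension groups: regular rings versus real rank zero C*-algebras

There are dimension groups `G₁` and `G₂` such that

* the positive cone of `G₁` is isomorphic to `V(R)` for some (unital) regular ring `R`, but not to
  `V(A)` for any C*-algebra `A` of real rank zero;
* the positive cone of `G₂` is isomorphic to `V(A)` for some (unital) C*-algebra `A` of real rank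
  zero, but not to `V(R)` for any regular ring `R`.

The definitions (in `Pool/Agent/Lib_helper8/V53`): `IsDimGroup G` says that the partially ordered
abelian group `G` is directed, unperforated and has the Riesz interpolation property;
`IsVNRegular R` is von Neumann regularity; `RealRankZero A` says that every self-adjoint element of
the unitization is a limit of self-adjoint elements with finite spectrum; `V R` is the monoid of
classes of idempotent matrices over `R`, where `e ∼ f` (`MEquiv e f`) means `e = x y`, `f = y x` for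
rectangular matrices `x`, `y`, with block-diagonal addition.  `mEquiv_iff_square` (in
`Pool/Agent/Lib_helper8/V53/Square.lean`) says that this is the same as the equivalence of `e` and
`f` by square matrices inside `M_∞(R)`.
-/

namespace Pool.Agent.Results.MP_53c861_al.DimensionGroups

open Pool.Agent.Lib_helper8.V53

universe u v

/-- **Neither of the inclusions `C_reg ∩ D ⊆ C_RR0 ∩ D` and `C_RR0 ∩ D ⊆ C_reg ∩ D` holds.** -/
theorem result :
    (∃ (G₁ : Type) (_ : AddCommGroup G₁) (_ : PartialOrder G₁) (_ : IsOrderedAddMonoid G₁),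
      IsDimGroup G₁ ∧
      (∃ (R : Type) (_ : Ring R), IsVNRegular R ∧ Nonempty (AddSubmonoid.nonneg G₁ ≃+ V R)) ∧
      ∀ (A : Type u) [NonUnitalCStarAlgebra A], RealRankZero A →
        IsEmpty (AddSubmonoid.nonneg G₁ ≃+ V A)) ∧
    (∃ (G₂ : Type) (_ : AddCommGroup G₂) (_ : PartialOrder G₂) (_ : IsOrderedAddMonoid G₂),
      IsDimGroup G₂ ∧
      (∃ (A : Type) (_ : NonUnitalCStarAlgebra A), RealRankZero A ∧
        Nonempty (AddSubmonoid.nonneg G₂ ≃+ V A)) ∧
      ∀ (R : Type v) [NonUnitalRing R], IsVNRegular R →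
        IsEmpty (AddSubmonoid.nonneg G₂ ≃+ V R)) := by
  refine ⟨?_, ?_⟩
  · obtain ⟨G, i1, i2, i3, hG, ⟨Φ⟩⟩ := (niceMon_RR (X := XX)).exists_dimGroup
    refine ⟨G, i1, i2, i3, hG, ⟨RR XX, inferInstance, RR_regular, ⟨Φ⟩⟩, ?_⟩
    intro A _ hA
    exact ⟨fun Ψ => (dimR A hA).false (Φ.symm.trans Ψ)⟩
  · obtain ⟨A, iA, hA, hn, hR⟩ := dimA.{v}
    obtain ⟨G, i1, i2, i3, hG, ⟨Φ⟩⟩ := hn.exists_dimGroup
    refine ⟨G, i1, i2, i3, hG, ⟨A, iA, hA, ⟨Φ⟩⟩, ?_⟩
    intro R _ hr
    exact ⟨fun Ψ => (hR R hr).false (Ψ.symm.trans Φ)⟩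

end Pool.Agent.Results.MP_53c861_al.DimensionGroups
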